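import Pool.Agent.helper83.GR.Spec

set_option autoImplicit false

namespace Pool.Agent.GR

open Pool.Agent.helper58.DC Pool.Agent.DI

theorem BRH_mem {G : Type} [Group G] {H : Subgroup G} {y c : G} (hc : c ∈ Cz H y) :
    c ∈ H ∧ y * c = c * y := by
  refine ⟨hc.1, ?_⟩
  have h := hc.2
  exact Subgroup.mem_centralizer_iff.1 h y rfl

theorem BRH_mem' {G : Type} [Group G] {H : Subgroup G} {y c : G} (hc : c ∈ H)
    (h : y * c = c * y) : c ∈ Cz H y := by
  refine ⟨hc, ?_⟩
  have h2 : c ∈ Subgroup.centralizer {y} := by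
    rw [Subgroup.mem_centralizer_iff]
    intro g hg
    rw [Set.mem_singleton_iff.1 hg]
    exact h
  exact h2

theorem BRH (hORB : ORB_stmt) : BRH_stmt := by
  classical
  intro p M hs G _ _ H y hy hp z w hz hw hzi hwi
  have : Fintype G := Fintype.ofFinite G
  refine ⟨?_, ⟨?_, ?_⟩, ?_⟩
  · intro c hc
    obtain ⟨hcH, hcy⟩ := BRH_mem hc
    obtain ⟨k, hk⟩ := hp
    set R : Equiv.Perm G := (MulAut.conj y).toEquiv with hR
    have hRx : ∀ x, R x = y * x * y⁻¹ := fun x => by
      rw [hR]; rfl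
    have hRn : ∀ n : ℕ, ∀ x, (R ^ n) x = y ^ n * x * (y ^ n)⁻¹ := by
      intro n
      induction n with
      | zero => intro x; simp
      | succ n ih =>
        intro x
        rw [pow_succ', Equiv.Perm.mul_apply, ih, hRx, pow_succ']
        group
    have hRk : R ^ (p ^ k) = 1 := by
      ext x
      rw [hRn, hk]
      simp
    have hinv : ∀ x, z (R x) * w ((R x)⁻¹ * c) = z x * w (x⁻¹ * c) := by
      intro x
      rw [hRx, hz.1 y hy x]
      have e : (y * x * y⁻¹)⁻¹ * c = y * (x⁻¹ * c) * y⁻¹ := by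
        have h1 : y⁻¹ * c = c * y⁻¹ := by
          rw [inv_mul_eq_iff_eq_mul, ← mul_assoc, hcy, mul_assoc, mul_inv_cancel, mul_one]
        calc (y * x * y⁻¹)⁻¹ * c = y * x⁻¹ * (y⁻¹ * c) := by group
          _ = y * x⁻¹ * (c * y⁻¹) := by rw [h1]
          _ = y * (x⁻¹ * c) * y⁻¹ := by group
      rw [e, hw.1 y hy]
    have key := hORB p M hs G R k 0 hRk (fun x => z x * w (x⁻¹ * c))
      (fun x => (hzi x).mul hs (hwi _)) hinv
    have e1 : cv z w c = ∑ x, z x * w (x⁻¹ * c) := by
      unfold cv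
      rw [finsum_eq_sum_of_fintype]
    have e2 : cv (rs y z) (rs y w) c =
        ∑ x ∈ Finset.univ.filter (fun x => (R ^ (p ^ 0)) x = x), z x * w (x⁻¹ * c) := by
      unfold cv
      rw [finsum_eq_sum_of_fintype, Finset.sum_filter]
      refine Finset.sum_congr rfl fun x _ => ?_
      have hiff : ((R ^ (p ^ 0)) x = x) ↔ y * x = x * y := by
        rw [hRn, pow_zero, pow_one, mul_inv_eq_iff_eq_mul]
      by_cases hx : y * x = x * y
      · rw [if_pos (hiff.2 hx)]
        have h2 : y * (x⁻¹ * c) = (x⁻¹ * c) * y := by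
          have h1 : y * x⁻¹ = x⁻¹ * y := by
            rw [mul_inv_eq_iff_eq_mul, mul_assoc, hx, ← mul_assoc, inv_mul_cancel, one_mul]
          rw [← mul_assoc, h1, mul_assoc, hcy, mul_assoc]
        unfold rs
        rw [if_pos hx, if_pos h2]
      · rw [if_neg (fun h => hx (hiff.1 h))]
        unfold rs
        rw [if_neg hx, zero_mul]
    rw [e1, e2]
    have key2 := Small.inM hs key
    simpa only using key2
  · intro h hh x
    obtain ⟨hhH, hhy⟩ := BRH_mem hh
    have hiff : (y * (h * x * h⁻¹) = h * x * h⁻¹ * y) ↔ y * x = x * y := by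
      have h1 : h⁻¹ * y = y * h⁻¹ := by
        rw [inv_mul_eq_iff_eq_mul, ← mul_assoc, ← hhy, mul_assoc, mul_inv_cancel, mul_one]
      have e1 : y * (h * x * h⁻¹) = h * (y * x) * h⁻¹ := by
        rw [← mul_assoc, ← mul_assoc, hhy]
        group
      have e2 : h * x * h⁻¹ * y = h * (x * y) * h⁻¹ := by
        rw [mul_assoc, h1]
        group
      rw [e1, e2]
      constructor
      · intro h
        exact mul_left_cancel (mul_right_cancel h)
      · intro h
        rw [h]
    unfold rs
    by_cases hx : y * x = x * y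
    · rw [if_pos (hiff.2 hx), if_pos hx, hz.1 h hhH x]
    · rw [if_neg (fun h' => hx (hiff.1 h')), if_neg hx]
  · intro x hx
    unfold rs
    by_cases hxy : y * x = x * y
    · rw [if_pos hxy]
      exact hz.2 x (fun hxH => hx (BRH_mem' hxH hxy))
    · rw [if_neg hxy]
  · intro x
    unfold rs
    split_ifs
    · exact hzi x
    · exact IntAt.zero hs

end Pool.Agent.GR
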